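import Pool.Agent.V1139.AB.Bound

/-!
# If Chow motives over a finite field form an abelian category, Chow groups are as small as possible

`C` is a rigid symmetric tensor category, `κ`-linear over a field `κ`, in which the endomorphisms of
the unit are the scalars: the category `CHMot(k)` of Chow motives over a finite field `k`, with
`κ = ℚ`. `F` is the Frobenius, a natural endomorphism of the identity functor.
-/

set_option autoImplicit false

open CategoryTheory Limits MonoidalCategory

namespace Pool.Agent.Results.MP_6c4da4_ag.CycleBound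

open Pool.Agent.V1139.AB

universe v u

/-- Suppose that the category `C` is abelian. `Weil κ F L μ` says: `F` is the identity on the unit,
and for each `X` there are integers `μ X α`, almost all zero, for `α ∈ L` (a field of characteristic
zero) such that the categorical trace of `F ^ n` on `X` is `∑ α, μ X α * α ^ n` for all `n ≥ 1`, and
`μ X 1 ≥ 0`. (For Chow motives over a finite field, `μ X α` is the multiplicity of the eigenvalue `α`
of the Frobenius on the even minus the one on the odd `ℓ`-adic cohomology of `X`; the eigenvalue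
`1` occurs only in degree zero.)

(1) The dimension of `Hom(𝟙, X)` is at most `μ X 1`. For `X = h(V)(i)`, the Chow group
`CH^i(V)_ℚ = Hom(𝟙, X)` has dimension at most the multiplicity of the eigenvalue `q^i` of the
Frobenius on `H^{2i}(V)`, the order of the pole of the zeta function of `V` at `s = i`.

(2) If there are `μ X 1` elements of `Hom(𝟙, X)` that are independent modulo numerical equivalence
(the Tate conjecture for `X`), then every numerically trivial element of `Hom(𝟙, X)` is zero. -/
theorem result {C : Type u} [Category.{v} C] [Abelian C] [MonoidalCategory C]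
    [SymmetricCategory C] [MonoidalPreadditive C] [RightRigidCategory C] {κ : Type*} [Field κ]
    [Linear κ C] (hκ : ∀ e : 𝟙_ C ⟶ 𝟙_ C, ∃ c : κ, e = c • 𝟙 (𝟙_ C))
    {F : 𝟭 C ⟶ 𝟭 C} {L : Type*} [Field L] [CharZero L] [Algebra κ L] {μ : C → L →₀ ℤ}
    (hW : Weil κ F L μ) (X : C) :
    Module.rank κ (𝟙_ C ⟶ X) ≤ ((μ X 1).toNat : Cardinal) ∧
    ∀ (n : ℕ), (n : ℤ) = μ X 1 → ∀ (x : Fin n → (𝟙_ C ⟶ X)) (r : Fin n → (X ⟶ 𝟙_ C)),
      (∀ i j, x i ≫ r j = if i = j then 𝟙 (𝟙_ C) else 0) →
        ∀ z : 𝟙_ C ⟶ X, (∀ r : X ⟶ 𝟙_ C, z ≫ r = 0) → z = 0 :=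
  ⟨rank_bound hκ hW X, fun n hn x r hxr z hz => num_zero hκ hW n hn x r hxr z hz⟩

end Pool.Agent.Results.MP_6c4da4_ag.CycleBound
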