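import Pool.Agent.V1139.AB.Prod

/-!
# If Chow motives form an abelian category, exterior products of cycles are injective

`C` is a rigid symmetric tensor category, `κ`-linear over a field `κ`, in which the endomorphisms of
the unit are the scalars: the category `CHMot(k)` of Chow motives over a field `k`, with `κ = ℚ`. For
`X = h(V)(i)`, `Y = h(W)(j)` the exterior product `Hom(𝟙, X) ⊗ Hom(𝟙, Y) ⟶ Hom(𝟙 ⊗ 𝟙, X ⊗ Y)` is the
exterior product of cycles `CH^i(V)_ℚ ⊗ CH^j(W)_ℚ ⟶ CH^{i+j}(V × W)_ℚ`.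
-/

set_option autoImplicit false

open CategoryTheory Limits MonoidalCategory

namespace Pool.Agent.Results.MP_6c4da4_ag.ExteriorProducts

open Pool.Agent.V1139.AB

universe v u

/-- Suppose that `C` is abelian.

(1) The exterior product `Hom(𝟙, X) ⊗ Hom(𝟙, Y) ⟶ Hom(𝟙 ⊗ 𝟙, X ⊗ Y)` is injective for all `X`, `Y`.
(2) The tensor product of two nonzero morphisms is nonzero, and no tensor power of a nonzero
    morphism is zero.
(3) If every numerically trivial element `z ∈ Hom(𝟙, X)`, for all `X`, is smash nilpotent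
    (Voevodsky's conjecture), then all numerically trivial elements are zero. -/
theorem result {C : Type u} [Category.{v} C] [Abelian C] [MonoidalCategory C]
    [SymmetricCategory C] [MonoidalPreadditive C] [RightRigidCategory C] {κ : Type*} [Field κ]
    [Linear κ C] [MonoidalLinear κ C] (hκ : ∀ e : 𝟙_ C ⟶ 𝟙_ C, ∃ c : κ, e = c • 𝟙 (𝟙_ C)) :
    (∀ X Y : C, Function.Injective (extProd κ X Y)) ∧
    ((∀ (X X' Y Y' : C) (f : X ⟶ X') (g : Y ⟶ Y'), f ≠ 0 → g ≠ 0 → (f ⊗ₘ g) ≠ 0) ∧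
      ∀ (X Y : C) (f : X ⟶ Y), f ≠ 0 → ∀ n : ℕ, tpm f n ≠ 0) ∧
    ((∀ (X : C) (z : 𝟙_ C ⟶ X), (∀ r : X ⟶ 𝟙_ C, z ≫ r = 0) → ∃ n : ℕ, tpm z n = 0) →
      ∀ (X : C) (z : 𝟙_ C ⟶ X), (∀ r : X ⟶ 𝟙_ C, z ≫ r = 0) → z = 0) := by
  refine ⟨extProd_injective hκ, ⟨fun X X' Y Y' f g => tensor_ne (idem_of_scalar hκ) f g,
    fun X Y f hf => tpm_ne (idem_of_scalar hκ) f hf⟩, fun h X z hz => ?_⟩
  by_contra h0
  obtain ⟨n, hn⟩ := h X z hz
  exact tpm_ne (idem_of_scalar hκ) z h0 n hn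

end Pool.Agent.Results.MP_6c4da4_ag.ExteriorProducts
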