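import Pool.Agent.V1139.AB.Nil

/-!
# If Chow motives over a finite field form an abelian category: no phantoms, and nilpotence

`C` is a rigid symmetric tensor category, `κ`-linear over a field `κ`, in which the endomorphisms of
the unit are the scalars: the category `CHMot(k)` of Chow motives over a finite field `k`, with
`κ = ℚ`. `F` is the Frobenius, a natural endomorphism of the identity functor.
-/

set_option autoImplicit false

open CategoryTheory Limits MonoidalCategory

namespace Pool.Agent.Results.MP_6c4da4_ag.NoPhantoms

open Pool.Agent.V1139.AB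

universe v u

/-- Suppose that the category `C` is abelian. `WeilTensor κ F L μ` says: `F` is the identity on the
unit, and for each `X` there are integers `μ X α`, almost all zero, for `α ∈ L` (a field of
characteristic zero) such that the categorical trace of `F ^ n` on `X` is `∑ α, μ X α * α ^ n` for all
`n ≥ 1`; `μ X 1 ≥ 0`, `μ X 0 = 0`, and `μ (X ⊗ Y) = 0` if `μ X = 0`. (For Chow motives over a finite
field, `μ X α` is the multiplicity of the eigenvalue `α` of the Frobenius on the even minus the one on
the odd `ℓ`-adic cohomology of `X`. By Deligne's theorem `μ X = 0` means that the cohomology of `X`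
vanishes, and `1` is an eigenvalue only in degree zero.)

(1) There are no phantom motives: if `μ X = 0`, then `X = 0`.
(2) Every numerically trivial endomorphism is nilpotent. -/
theorem result {C : Type u} [Category.{v} C] [Abelian C] [MonoidalCategory C]
    [SymmetricCategory C] [MonoidalPreadditive C] [RightRigidCategory C] {κ : Type*} [Field κ]
    [Linear κ C] [MonoidalLinear κ C] (hκ : ∀ e : 𝟙_ C ⟶ 𝟙_ C, ∃ c : κ, e = c • 𝟙 (𝟙_ C))
    {F : 𝟭 C ⟶ 𝟭 C} {L : Type*} [Field L] [CharZero L] [Algebra κ L] {μ : C → L →₀ ℤ}
    (hW : WeilTensor κ F L μ) :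
    (∀ X : C, μ X = 0 → IsZero X) ∧
    ∀ (X : C) (f : End X), (∀ g : X ⟶ X, tr ((show X ⟶ X from f) ≫ g) = 0) →
      ∃ n : ℕ, f ^ n = 0 :=
  ⟨fun _ => no_phantom hκ hW, fun _ f hf => nilpotent hκ hW f hf⟩

end Pool.Agent.Results.MP_6c4da4_ag.NoPhantoms
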